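import Pool.Agent.W661.RC.Stm
import Pool.Agent.W683.RC.Bas

/-!
# IRR: near-minimal uncovered pieces have no large near-invariant subprojection
-/

set_option autoImplicit false

namespace Pool.Agent.W542.RC.IRR

open Matrix
open Pool.Agent.W661.RC
open Pool.Agent.W683.RC

theorem main (hI : IclP) : IrrP := by
  intro d k C η δ S lam a2 δ2 t ζ1 Q q hη hη2 hC hlam hQ hq hq0 hζ1 ha2 hδ2 ht hδ hov hD hDΦ hnm
    z hz hqz hen hz23
  by_contra hcon
  push Not at hcon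
  have hlam0 : (0:ℝ) ≤ lam := by linarith
  have hC0 : (0:ℝ) < C := by linarith
  have hz0 : 0 < tr z := lt_trans (mul_pos hζ1 hq0) hcon
  have hle : Le z q := pr_le hz hq hqz
  have hhz : tr (hh lam Q * z) ≤ tr (hh lam Q * q) := Le_mul_tr hle (hh_psd hlam0 hQ)
  have hhz0 : 0 ≤ tr (hh lam Q * z) := tr_mul_pr_nonneg (hh_psd hlam0 hQ) hz
  have hhz2 : tr (hh lam Q * z) ≤ 1 / 200 * tr z := by
    have h1 : a2 * tr q ≤ ζ1 / 200 * tr q := mul_le_mul_of_nonneg_right ha2 hq0.le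
    nlinarith
  have hΦle : Le (S.Φ z) (S.Φ q) := by
    have h := S.pos (q - z) hle
    rw [map_sub] at h
    exact h
  have hDz : tr (S.D * z) ≤ tr (S.D * q) := Le_mul_tr hle S.hD
  have hDz0 : 0 ≤ tr (S.D * z) := tr_mul_pr_nonneg S.hD hz
  have hDΦz : tr (S.D * S.Φ z) ≤ tr (S.D * S.Φ q) := Le_mul_tr hΦle S.hD
  have hkey : 16 * (δ2 * tr q) ≤ δ * tr z := by
    have h1 : 16 * δ2 * tr q ≤ ζ1 * δ * tr q := mul_le_mul_of_nonneg_right hδ2 hq0.le
    have h2 : δ * (ζ1 * tr q) ≤ δ * tr z := mul_le_mul_of_nonneg_left hcon.le hδ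
    nlinarith
  have hρ : 16 * (C * (1 / (2048 * C)) + η) ≤ ((1:ℝ) / 8) ^ 2 := by
    have h1 : C * (1 / (2048 * C)) = 1 / 2048 := by
      field_simp
    rw [h1]
    linarith
  have hs1 : √((1:ℝ) / 200) ≤ 71 / 1000 := by
    rw [Real.sqrt_le_left (by norm_num)]
    norm_num
  have hs0 : 0 ≤ √((1:ℝ) / 200) := Real.sqrt_nonneg _
  have hlev : (√((1:ℝ) / 200) + 1 / 8) ^ 2 ≤ 1 / 16 * (1 - (1 / 8) ^ 2) := by
    nlinarith
  obtain ⟨f', hf', htr, -, hhf, -, -⟩ := hI d k C η δ S lam (1 / (2048 * C)) (1 / 200) (1 / 8) Q z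
    hη.le hC0.le hlam hQ hz hz0 (by norm_num) (by norm_num) (by norm_num) hρ hen hhz2 hlev
    (by linarith) (by linarith)
  have hmin := hnm f' hf'
  have hsz : √(tr z) ^ 2 = tr z := Real.sq_sqrt hz0.le
  have hshz : √(tr (hh lam Q * z)) ^ 2 = tr (hh lam Q * z) := Real.sq_sqrt hhz0
  have hhf2 : tr (hh lam Q * f') ≤ 2 * tr (hh lam Q * z) + 2 / 64 * tr z := by
    nlinarith [sq_nonneg (√(tr (hh lam Q * z)) - 1 / 8 * √(tr z))]
  have hhf0 : 0 ≤ tr (hh lam Q * f') := tr_mul_pr_nonneg (hh_psd hlam0 hQ) hf'.pr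
  have hJ0 : 0 ≤ JJ lam Q f' := add_nonneg (hf'.nz.le) hhf0
  have hJ : JJ lam Q f' ≤ 1057 / 1000 * tr z := by
    unfold JJ
    nlinarith
  have h1 : (1 + t) * JJ lam Q f' ≤ 11 / 10 * JJ lam Q f' :=
    mul_le_mul_of_nonneg_right (by linarith) hJ0
  nlinarith

end Pool.Agent.W542.RC.IRR
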